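import Pool.Agent.Helper35.PI2.St

/-! Project PI2, module PE: the polynomial identity for `n = 2`. -/

namespace Helper28.PI2

open Helper35.PI Helper35.PI2
open scoped BigOperators

theorem hPE : StPE := by
  intro N A μ hA P Q H hP hQ hH θ y hθ hy
  have h10 : A 1 0 = A 0 1 := hA 1 0
  subst hP hQ hH hθ hy
  generalize ha : A 0 0 = a
  generalize hb : A 0 1 = b
  generalize hc : A 1 1 = c
  have hHv : Hv A = a + c := by
    unfold Hv; rw [Fin.sum_univ_two, ha, hc]
  have n1 : ∀ x : EE N, ‖x‖ ^ 2 = (inner ℝ x x : ℝ) := fun x => (real_inner_self_eq_norm_sq x).symm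
  have sba : (inner ℝ b a : ℝ) = inner ℝ a b := real_inner_comm _ _
  have sca : (inner ℝ c a : ℝ) = inner ℝ a c := real_inner_comm _ _
  have scb : (inner ℝ c b : ℝ) = inner ℝ b c := real_inner_comm _ _
  constructor
  · unfold XX YY
    rw [hHv]
    simp only [Fin.sum_univ_two, h10, ha, hb, hc, n1, inner_add_left, inner_add_right,
      inner_sub_left, inner_sub_right, real_inner_smul_left, real_inner_smul_right, sba, sca, scb]
    ring
  · unfold XX YY Sq ZZ AAH zz
    rw [hHv]
    simp only [Fin.sum_univ_two, h10, ha, hb, hc, n1, inner_add_left, inner_add_right,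
      inner_sub_left, inner_sub_right, real_inner_smul_left, real_inner_smul_right, sba, sca, scb]
    ring

end Helper28.PI2
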